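import Pool.Agent.W394.BQN.Stm

/-!
# Regularity of the rings `GoodN`
-/

set_option autoImplicit false

open Polynomial

noncomputable section

namespace Pool.Agent.W656.BQN

open BQ Pool.Agent.W394.BQN

theorem reg_pid (W : Type) [CommRing W] [IsDomain W] [IsPrincipalIdealRing W] :
    IsRegularRing W := inferInstance

theorem reg_mv (l : ℕ) (W : Type) [CommRing W] (h : IsRegularRing W) :
    IsRegularRing (MvPolynomial (Fin l) W) := inferInstance

theorem dom_mv (l : ℕ) (W : Type) [CommRing W] [IsDomain W] :
    IsDomain (MvPolynomial (Fin l) W) := inferInstance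

theorem reg_poly (K : Type) [CommRing K] (h : IsRegularRing K) : IsRegularRing K[X] :=
  inferInstance

theorem reg_node {C K : Type} [CommRing C] [IsDomain C] [CommRing K] [IsDomain K]
    (hC : IsRegularRing C) (u : C) (hu : u ≠ 0) (r : C →+* K) (hs : Function.Surjective r)
    (hk : ∀ c, r c = 0 ↔ u ∣ c) (hK : IsRegularRing K[X]) : IsRegularRing (Node C u) :=
  Node.regular u hu r hs hk

theorem t_REG (h : S_LG) : S_REG := by
  intro n
  induction n with
  | zero =>
    intro V D _ _ _ _ j hj
    obtain ⟨k, e, -⟩ := hj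
    have h1 : IsRegularRing (MvPolynomial (Fin k) V) := reg_mv k V (reg_pid V)
    exact IsRegularRing.of_ringEquiv e
  | succ n ih =>
    intro V D _ _ _ _ j hj
    obtain ⟨C, iC, j₀, u, e, hC, hN, -⟩ := hj
    obtain ⟨hdom, -⟩ := h n V C j₀ hC
    have hreg : IsRegularRing C := ih V C j₀ hC
    obtain ⟨hu0, W, iW, iWd, iWp, i, l, r, -, -, hr, hk, -⟩ := hN
    have h1 : IsRegularRing W := reg_pid W
    have h2 : IsRegularRing (MvPolynomial (Fin l) W) := reg_mv l W h1
    have hdom2 : IsDomain (MvPolynomial (Fin l) W) := dom_mv l W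
    have h3 : IsRegularRing (MvPolynomial (Fin l) W)[X] := reg_poly _ h2
    have hR : IsRegularRing (Node C u) := reg_node hreg u hu0 r hr hk h3
    exact IsRegularRing.of_ringEquiv e

end Pool.Agent.W656.BQN
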